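import Mathlib

/-!
# Colouring unit circular arcs with max-load many colours

If at least `L - 1` further unit arcs can be added to a finite family of unit arcs of max load `L`
without raising the max load, then the family is properly `L`-colourable.
-/

namespace Pool.Agent.Results.MP_7d4b8e_co.UnitArcs

/-- A unit arc of the circle `ℝ/lam ℤ`: the image of a half-open interval `[x, x+1)`. -/
def IsUnitArc (lam : ℝ) (S : Set (AddCircle lam)) : Prop :=
  ∃ x : ℝ, S = (fun y : ℝ => (y : AddCircle lam)) '' Set.Ico x (x + 1)

/-- The number of members of the family `A` that contain the point `p`. -/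
noncomputable def load {ι : Type} {lam : ℝ} (A : ι → Set (AddCircle lam)) (p : AddCircle lam) : ℕ :=
  Set.ncard {i | p ∈ A i}

/-- The max load: the largest number of members containing one common point. -/
noncomputable def maxLoad {ι : Type} {lam : ℝ} (A : ι → Set (AddCircle lam)) : ℕ :=
  sSup (Set.range (load A))

/-- The intersection graph of a family of sets. -/
def intersectionGraph {ι X : Type} (A : ι → Set X) : SimpleGraph ι where
  Adj i j := i ≠ j ∧ (A i ∩ A j).Nonempty
  symm := ⟨fun i j h => ⟨h.1.symm, by rw [Set.inter_comm]; exact h.2⟩⟩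
  loopless := ⟨fun _ h => h.1 rfl⟩

theorem load_le_card {ι : Type} [Fintype ι] {lam : ℝ} (A : ι → Set (AddCircle lam))
    (p : AddCircle lam) : load A p ≤ Fintype.card ι := by
  classical
  unfold load
  rw [← Nat.card_eq_fintype_card]
  exact Set.ncard_le_card _

theorem bddAbove_load {ι : Type} [Fintype ι] {lam : ℝ} (A : ι → Set (AddCircle lam)) :
    BddAbove (Set.range (load A)) :=
  ⟨Fintype.card ι, by rintro _ ⟨p, rfl⟩; exact load_le_card A p⟩

theorem load_le_maxLoad {ι : Type} [Fintype ι] {lam : ℝ} (A : ι → Set (AddCircle lam))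
    (p : AddCircle lam) : load A p ≤ maxLoad A :=
  le_csSup (bddAbove_load A) ⟨p, rfl⟩

/-- The main lemma: a family of `N` unit arcs all of whose loads are at most `L`, with `L ∣ N`,
is properly `L`-colourable. -/
theorem main {ι : Type} [Fintype ι] {lam : ℝ} (hlam : 1 ≤ lam)
    (A : ι → Set (AddCircle lam)) (hA : ∀ i, IsUnitArc lam (A i)) (L : ℕ) (hL : 0 < L)
    (hload : ∀ p, load A p ≤ L) (hdvd : L ∣ Fintype.card ι) :
    (intersectionGraph A).Colorable L := by
  classical
  have hpos : 0 < lam := by linarith
  have : Fact (0 < lam) := ⟨hpos⟩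
  -- left endpoints in `[0, lam)`
  have hx : ∀ i, ∃ x : ℝ, 0 ≤ x ∧ x < lam ∧
      A i = (fun y : ℝ => (y : AddCircle lam)) '' Set.Ico x (x + 1) := by
    intro i
    obtain ⟨y, hy⟩ := hA i
    refine ⟨toIcoMod hpos 0 y, ?_, ?_, ?_⟩
    · exact (toIcoMod_mem_Ico hpos 0 y).1
    · have := (toIcoMod_mem_Ico hpos 0 y).2
      simpa using this
    · rw [hy]
      have hz : toIcoMod hpos 0 y = y - toIcoDiv hpos 0 y • lam := rfl
      set z := toIcoDiv hpos 0 y with hzdef
      ext q
      constructor
      · rintro ⟨w, hw, rfl⟩
        refine ⟨w - z • lam, ?_, ?_⟩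
        · rw [hz]
          constructor
          · have := hw.1; linarith
          · have := hw.2; linarith
        · show ((w - z • lam : ℝ) : AddCircle lam) = (w : AddCircle lam)
          rw [AddCircle.coe_sub, AddCircle.coe_zsmul, AddCircle.coe_period, smul_zero, sub_zero]
      · rintro ⟨w, hw, rfl⟩
        rw [hz] at hw
        refine ⟨w + z • lam, ?_, ?_⟩
        · constructor
          · have := hw.1; linarith
          · have := hw.2; linarith
        · show ((w + z • lam : ℝ) : AddCircle lam) = (w : AddCircle lam)
          rw [AddCircle.coe_add, AddCircle.coe_zsmul, AddCircle.coe_period, smul_zero, add_zero]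
  choose x hx0 hx1 hxA using hx
  set N := Fintype.card ι with hN
  let e0 : Fin N ≃ ι := (Fintype.equivFin ι).symm
  let σ : Equiv.Perm (Fin N) := Tuple.sort (x ∘ e0)
  let e : Fin N ≃ ι := σ.trans e0
  have hmono : Monotone (x ∘ e) := Tuple.monotone_sort (x ∘ e0)
  -- counting
  have hcount : ∀ (p : AddCircle lam) (S : Finset (Fin N)), (∀ m ∈ S, p ∈ A (e m)) →
      S.card ≤ L := by
    intro p S hS
    refine le_trans ?_ (hload p)
    have h1 : (S.map e.toEmbedding : Set ι) ⊆ {i | p ∈ A i} := by
      intro i hi
      simp only [Finset.coe_map, Set.mem_image, Finset.mem_coe] at hi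
      obtain ⟨m, hm, rfl⟩ := hi
      exact hS m hm
    have h2 := Set.ncard_le_ncard h1 (Set.toFinite _)
    rw [Set.ncard_coe_finset, Finset.card_map] at h2
    exact h2
  have hmem : ∀ (i : ι) (w : ℝ), x i ≤ w → w < x i + 1 → ((w : ℝ) : AddCircle lam) ∈ A i := by
    intro i w h1 h2
    rw [hxA]
    exact ⟨w, ⟨h1, h2⟩, rfl⟩
  have key : ∀ i j : Fin N, i < j → (A (e i) ∩ A (e j)).Nonempty →
      j.val - i.val < L ∨ i.val + N - j.val < L := by
    intro i j hij hne
    have hxij : x (e i) ≤ x (e j) := hmono hij.le
    obtain ⟨q, hqi, hqj⟩ := hne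
    rw [hxA] at hqi hqj
    obtain ⟨u, hu, huq⟩ := hqi
    obtain ⟨v, hv, hvq⟩ := hqj
    have huv : ((u : ℝ) : AddCircle lam) = (v : AddCircle lam) := huq.trans hvq.symm
    have hsub : ((v - u : ℝ) : AddCircle lam) = 0 := by
      rw [AddCircle.coe_sub, huv, sub_self]
    rw [AddCircle.coe_eq_zero_iff] at hsub
    obtain ⟨n, hn⟩ := hsub
    rw [zsmul_eq_mul] at hn
    have hu1 := hu.1
    have hu2 := hu.2
    have hv1 := hv.1
    have hv2 := hv.2
    have hi0 := hx0 (e i)
    have hi1 := hx1 (e i)
    have hj0 := hx0 (e j)
    have hj1 := hx1 (e j)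
    have hn_ge : 0 ≤ n := by
      by_contra hneg
      have h1 : n ≤ -1 := by omega
      have h2 : (n : ℝ) ≤ -1 := by exact_mod_cast h1
      nlinarith
    have hn_le : n ≤ 1 := by
      by_contra hneg
      have h1 : 2 ≤ n := by omega
      have h2 : (2 : ℝ) ≤ (n : ℝ) := by exact_mod_cast h1
      nlinarith
    have hcases : n = 0 ∨ n = 1 := by omega
    rcases hcases with rfl | rfl
    · -- plain overlap
      left
      have hd : x (e j) - x (e i) < 1 := by
        simp only [Int.cast_zero, zero_mul] at hn
        linarith
      have h := hcount ((x (e j) : ℝ) : AddCircle lam) (Finset.Icc i j) (by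
        intro m hm
        rw [Finset.mem_Icc] at hm
        have h1 : x (e i) ≤ x (e m) := hmono hm.1
        have h2 : x (e m) ≤ x (e j) := hmono hm.2
        exact hmem _ _ h2 (by linarith))
      rw [Fin.card_Icc] at h
      have : i.val < j.val := hij
      omega
    · -- overlap across the origin
      right
      have hd : x (e i) + lam - x (e j) < 1 := by
        simp only [Int.cast_one, one_mul] at hn
        linarith
      have h := hcount ((x (e i) : ℝ) : AddCircle lam) (Finset.Iic i ∪ Finset.Ici j) (by
        intro m hm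
        rw [Finset.mem_union, Finset.mem_Iic, Finset.mem_Ici] at hm
        rcases hm with hm | hm
        · have h1 : x (e m) ≤ x (e i) := hmono hm
          have h2 := hx0 (e m)
          exact hmem _ _ h1 (by linarith)
        · have h1 : x (e j) ≤ x (e m) := hmono hm
          have h2 := hx1 (e m)
          have h3 : ((x (e i) + lam : ℝ) : AddCircle lam) ∈ A (e m) :=
            hmem _ _ (by linarith) (by linarith)
          rwa [AddCircle.coe_add, AddCircle.coe_period, add_zero] at h3)
      rw [Finset.card_union_of_disjoint, Fin.card_Iic, Fin.card_Ici] at h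
      · have h1 : i.val < j.val := hij
        have h2 := j.isLt
        omega
      · rw [Finset.disjoint_left]
        intro m hm1 hm2
        rw [Finset.mem_Iic] at hm1
        rw [Finset.mem_Ici] at hm2
        exact absurd (hm2.trans hm1) (not_le.mpr hij)
  -- the colouring
  have hprop : ∀ i j : Fin N, i < j → i.val % L = j.val % L →
      ¬ (A (e i) ∩ A (e j)).Nonempty := by
    intro i j hij hmod hne
    have h1 : i.val < j.val := hij
    have h2 := j.isLt
    have hd : L ∣ j.val - i.val := (Nat.modEq_iff_dvd' h1.le).mp hmod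
    rcases key i j hij hne with h | h
    · have := Nat.le_of_dvd (by omega) hd
      omega
    · have hd2 : L ∣ i.val + N - j.val := by
        have : i.val + N - j.val = N - (j.val - i.val) := by omega
        rw [this]
        exact Nat.dvd_sub hdvd hd
      have := Nat.le_of_dvd (by omega) hd2
      omega
  refine ⟨SimpleGraph.Coloring.mk
    (fun i => (⟨(e.symm i).val % L, Nat.mod_lt _ hL⟩ : Fin L)) ?_⟩
  intro i j hij heq
  have hmod : (e.symm i).val % L = (e.symm j).val % L := by
    simpa using congrArg Fin.val heq
  have hne : e.symm i ≠ e.symm j := fun h => hij.1 (e.symm.injective h)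
  rcases lt_or_gt_of_ne hne with h | h
  · apply hprop _ _ h hmod
    simpa using hij.2
  · apply hprop _ _ h hmod.symm
    rw [Set.inter_comm]
    simpa using hij.2

/-- **Theorem.** Let `lam ≥ 1` and let `A` be a finite family of unit arcs on the circle of
circumference `lam`, with max load `L`. If some family `B` of at least `L - 1` unit arcs can be
added to `A` without raising the max load, then `χ(A) ≤ L`. -/
theorem result : ∀ (lam : ℝ), 1 ≤ lam → ∀ (ι κ : Type) [Fintype ι] [Fintype κ]
    (A : ι → Set (AddCircle lam)) (B : κ → Set (AddCircle lam)),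
    (∀ i, IsUnitArc lam (A i)) → (∀ j, IsUnitArc lam (B j)) →
    maxLoad A ≤ Fintype.card κ + 1 →
    maxLoad (Sum.elim A B) = maxLoad A →
    (intersectionGraph A).chromaticNumber ≤ maxLoad A := by
  intro lam hlam ι κ _ _ A B hA hB hcard hmax
  classical
  rw [SimpleGraph.chromaticNumber_le_iff_colorable]
  rcases Nat.eq_zero_or_pos (maxLoad A) with h0 | hLpos
  · -- no arcs at all
    have hempty : IsEmpty ι := by
      refine ⟨fun i => ?_⟩
      obtain ⟨x, hx⟩ := hA i
      have h1 : ((x : ℝ) : AddCircle lam) ∈ A i := by
        rw [hx]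
        exact ⟨x, ⟨le_refl x, by linarith⟩, rfl⟩
      have h2 := load_le_maxLoad A ((x : ℝ) : AddCircle lam)
      rw [h0] at h2
      have h3 : load A ((x : ℝ) : AddCircle lam) = 0 := by omega
      unfold load at h3
      rw [Set.ncard_eq_zero (Set.toFinite _)] at h3
      have : i ∈ ({i | ((x : ℝ) : AddCircle lam) ∈ A i} : Set ι) := h1
      rw [h3] at this
      exact this
    exact ⟨SimpleGraph.Coloring.mk (fun i => (hempty.false i).elim) (fun {i} => (hempty.false i).elim)⟩
  · set L := maxLoad A with hLdef
    -- the number of arcs to add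
    obtain ⟨t, ht1, ht2⟩ : ∃ t, t ≤ L - 1 ∧ L ∣ Fintype.card ι + t := by
      have hm := Nat.mod_lt (Fintype.card ι) hLpos
      have hdm := Nat.div_add_mod (Fintype.card ι) L
      rcases Nat.eq_zero_or_pos (Fintype.card ι % L) with hz | hz
      · exact ⟨0, by omega, by rw [add_zero]; exact Nat.dvd_of_mod_eq_zero hz⟩
      · refine ⟨L - Fintype.card ι % L, by omega, Fintype.card ι / L + 1, ?_⟩
        rw [mul_add, mul_one]
        omega
    have htκ : t ≤ Fintype.card κ := by omega
    let g : Fin t → κ := fun m => (Fintype.equivFin κ).symm (Fin.castLE htκ m)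
    have hg : Function.Injective g :=
      (Fintype.equivFin κ).symm.injective.comp (Fin.castLE_injective htκ)
    let F : ι ⊕ Fin t → Set (AddCircle lam) := Sum.elim A (B ∘ g)
    have hFarc : ∀ i, IsUnitArc lam (F i) := by
      rintro (i | m)
      · exact hA i
      · exact hB (g m)
    have hFload : ∀ p, load F p ≤ L := by
      intro p
      have h1 : load F p ≤ load (Sum.elim A B) p := by
        unfold load
        refine Set.ncard_le_ncard_of_injOn (Sum.map id g) ?_ ?_ (Set.toFinite _)
        · rintro (i | m) hi
          · exact hi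
          · exact hi
        · intro a _ b _ hab
          exact (Sum.map_injective.mpr ⟨Function.injective_id, hg⟩) hab
      have h2 := load_le_maxLoad (Sum.elim A B) p
      omega
    have hcardF : Fintype.card (ι ⊕ Fin t) = Fintype.card ι + t := by simp
    have hcol := main hlam F hFarc L hLpos hFload (by rw [hcardF]; exact ht2)
    have hhom : intersectionGraph A →g intersectionGraph F :=
      { toFun := Sum.inl
        map_rel' := by
          intro a b hab
          exact ⟨fun h => hab.1 (Sum.inl_injective h), hab.2⟩ }
    exact hcol.of_hom hhom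

end Pool.Agent.Results.MP_7d4b8e_co.UnitArcs
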